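import Mathlib
import Pool.Agent.H225R3.MargDefs
import Pool.Agent.R826.FrobN

/-!
# Margulis' injectivity radius conjecture and Frobenius automorphisms

`Pool.Agent.H225R3.MargDefs` contains the definitions: `Realization ρ Γ k n S` (a homomorphism `r`
from `Γ` to the `n` by `n` matrices over the ring of integers of the number field `k`, bounded under
all embeddings outside `S`, such that for `σ` in `S` the eigenvalues of `σ (r γ)` are eigenvalues of
`ρ γ`, and such that only `1` is mapped to a unipotent matrix) and `UniformlyDiscrete` (there is an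
identity neighbourhood `U` such that `g U g⁻¹` meets every group of the family in the identity only).

The theorem is about arithmetic groups over number fields `k`, of any degree, which have a finite
extension `L` with an automorphism `φ` which acts as `x ↦ x ^ q` on residue fields of `L` above a
prime number `p`; here `q > 1` is a bounded power of `p`.  There are two cases.

(a) The number `|S| [L : k]` is bounded, and the sum of the residue degrees of the exceptional primes
of `L` above `p`, on which `φ` is not `x ↦ x ^ q`, is at most `c d / log (2 d)`, `d = [L : ℚ]`.  In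
particular, no condition on ramification or residue degrees is made if there are no exceptional
primes; on the other hand, all fields in which the sum of all residue degrees above `p` is at most
`c d / log (2 d)` are included (these are the fields of the starting result `RamifiedFields`).

(b) The congruence `φ x ≡ x ^ q` holds modulo an ideal of norm at least `B ^ [L : ℚ]`, `B > 1`.  In
this case there is no condition on the set `S` of the noncompact embeddings and on `[L : k]`, and the
lower bound for the eigenvalues grows exponentially with `[k : ℚ] / |S|`.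

Method.  Let `A = r γ` and `M = φ A`, a matrix over the ring of integers of `L`.  Let `I` be the
product of the primes which are not exceptional, or the ideal in (b).  Modulo `I` the characteristic
polynomials of `M` and of `A ^ q` are the same.  Hence, by the theorem of Cayley and Hamilton, `W t`,
the value at `A ^ (q p ^ t)` of the characteristic polynomial of `M ^ (p ^ t)`, is `0` modulo `I` for
`t = 0`, and one finds that it is `0` modulo `I ^ (t + 1)` for all `t`.  If some coefficient of the
characteristic polynomial of `W t`, other than the leading one, is not zero, its norm is at least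
`N(I) ^ (t + 1)`.  If not, then all the eigenvalues of `W t` are zero, so that the finite set of the
`p ^ t`-th powers of the eigenvalues of all conjugates of `A` is mapped to itself by `x ↦ x ^ q`,
and the eigenvalues are roots of unity.  In case (b) a fixed large `t` is sufficient.  In case (a) one
takes `p ^ t` of the order of `d`, if `N(I)` is at least `p ^ (C d / log (2 d))` for a constant `C`
depending on `n`.  Otherwise the sum of all residue degrees above `p` is at most
`(c + C) d / log (2 d)`, and the bound of the starting files for such fields applies.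
-/

set_option autoImplicit false

namespace Pool.Agent.Results.MP_162bbe_gt.FrobeniusAutomorphisms

open NumberField Module Pool.Agent.H225R3.Marg Pool.Agent.R826.Frob

universe u

/-- Case (a): the number field `L` of degree `d` has an automorphism `φ` such that for a prime number
`p` and a power `q = p ^ a`, `1 < q ≤ Q`, the sum of the residue degrees of the prime ideals of `L`
above `p` modulo which `φ` is not the map `x ↦ x ^ q` (this sum is `badDegree p q φ`) is at most
`c d / log (2 d)`. -/
def FrobeniusAbove (c : ℝ) (Q : ℕ) (L : Type) [Field L] [NumberField L] : Prop :=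
  ∃ (p a : ℕ) (φ : L ≃+* L), p.Prime ∧ 0 < a ∧ p ^ a ≤ Q ∧
    (badDegree p (p ^ a) φ : ℝ) * Real.log (2 * finrank ℚ L) ≤ c * finrank ℚ L

/-- Case (b): the number field `L` has an automorphism `φ` and its ring of integers has an ideal `I`
containing the prime number `p`, of norm at least `B ^ [L : ℚ]`, such that `φ x ≡ x ^ q` modulo `I`
for all integral `x`, where `q = p ^ a`, `1 < q ≤ Q`. -/
def FrobeniusModulo (B : ℝ) (Q : ℕ) (L : Type) [Field L] [NumberField L] : Prop :=
  ∃ (p a : ℕ) (φ : L ≃+* L) (I : Ideal (𝓞 L)), p.Prime ∧ 0 < a ∧ p ^ a ≤ Q ∧ (p : 𝓞 L) ∈ I ∧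
    (∀ x : 𝓞 L, RingOfIntegers.mapRingHom (φ : L →+* L) x - x ^ p ^ a ∈ I) ∧
    B ^ finrank ℚ L ≤ (Ideal.absNorm I : ℝ)

/-- The torsion-free subgroups `Γ` of `G` which have a realization by matrices of size `n` over a
number field `k`, with set of noncompact embeddings `S`, having a finite extension `L` such that
`|S| [L : k] ≤ s` and `FrobeniusAbove c Q L`, or `FrobeniusModulo B Q L`. -/
def Family (B c : ℝ) (Q s n : ℕ) {G : Type*} [Group G] {M : ℕ}
    (ρ : G →* Matrix (Fin M) (Fin M) ℂ) : Set (Subgroup G) :=
  {Γ | (∀ γ ∈ Γ, ∀ N : ℕ, 0 < N → γ ^ N = 1 → γ = 1) ∧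
    ∃ (k : Type) (_ : Field k) (_ : NumberField k) (S : Finset (k →+* ℂ))
      (_ : Realization ρ Γ k n S) (L : Type) (_ : Field L) (_ : NumberField L) (_ : Algebra k L),
      (S.card * finrank k L ≤ s ∧ FrobeniusAbove c Q L) ∨ FrobeniusModulo B Q L}

/-- (1) Let `B > 1`, `c`, `Q`, `s` and `n` be given. For a topological group `G` and a continuous
finite dimensional complex representation `ρ` of `G` (for instance the complexified adjoint
representation of a semisimple Lie group) the family `Family B c Q s n ρ` of torsion-free subgroups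
of `G` is uniformly discrete. Moreover there is a number `E`, which only depends on `B`, `c`, `Q`,
`s` and `n`, such that if a subgroup `Γ` of `G` has a realization by matrices of size `n` over a
number field `k`, with set of noncompact embeddings `S`, and `L` is a finite extension of `k`, then
each element `γ` of `Γ` of infinite order has an eigenvalue `l` (of `ρ γ`) with `|l| ^ E ≥ 2` if
`|S| [L : k] ≤ s` and `FrobeniusAbove c Q L`, and with `|l| ^ (E |S|) ≥ 2 ^ [k : ℚ]` if
`FrobeniusModulo B Q L`.

(2) If `L / F` is a Galois extension of number fields, and a central element `φ` of the Galois group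
satisfies, for every prime ideal `P` of `F` above the prime number `p`, the congruence
`φ x ≡ x ^ q`, `q = p ^ a`, modulo at least one prime ideal of `L` above `P`, then
`FrobeniusAbove c Q L` holds for all `c ≥ 0` and `Q ≥ q`; if moreover `p` is unramified in `L`, then
also `FrobeniusModulo B Q L` for all `B ≤ p`. -/
theorem result :
    (∀ (B c : ℝ) (Q s n : ℕ), 1 < B → ∃ E : ℕ, ∀ (G : Type u) [Group G] (M : ℕ)
      (ρ : G →* Matrix (Fin M) (Fin M) ℂ),
      (∀ [TopologicalSpace G], Continuous ρ → UniformlyDiscrete (Family B c Q s n ρ)) ∧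
      ∀ (Γ : Subgroup G) (k L : Type) [Field k] [NumberField k] [Field L] [NumberField L]
        [Algebra k L] (S : Finset (k →+* ℂ)), Realization ρ Γ k n S →
        ∀ γ ∈ Γ, (∀ N : ℕ, 0 < N → γ ^ N ≠ 1) →
          (S.card * finrank k L ≤ s → FrobeniusAbove c Q L →
            ∃ l : ℂ, IsEig (ρ γ) l ∧ 2 ≤ ‖l‖ ^ E) ∧
          (FrobeniusModulo B Q L →
            ∃ l : ℂ, IsEig (ρ γ) l ∧ 2 ^ finrank ℚ k ≤ ‖l‖ ^ (E * S.card))) ∧
    ∀ (F L : Type) [Field F] [NumberField F] [Field L] [NumberField L] [Algebra F L]
      [IsGalois F L] (p a : ℕ) (φ : Gal(L/F)), p.Prime → 0 < a →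
      (∀ τ : Gal(L/F), φ * τ = τ * φ) →
      (∀ P : Ideal (𝓞 F), P.IsPrime → (p : 𝓞 F) ∈ P → ∃ q : Ideal (𝓞 L), q.IsPrime ∧
        q.under (𝓞 F) = P ∧ ∀ x : 𝓞 L, φ • x - x ^ p ^ a ∈ q) →
      ∀ Q : ℕ, p ^ a ≤ Q → (∀ c : ℝ, 0 ≤ c → FrobeniusAbove c Q L) ∧
        ((Ideal.span {(p : 𝓞 L)}).IsRadical → ∀ B : ℝ, 1 < B → B ≤ p → FrobeniusModulo B Q L) := by
  refine ⟨?_, ?_⟩
  · intro B c Q s n hB
    obtain ⟨E1, hE1, h1⟩ := ext_gap B hB Q n
    obtain ⟨E2, hE2, h2⟩ := ram_ext_gap Q s n c
    have up : ∀ (d N N' : ℕ) (l : ℂ), 0 < d → N ≤ N' → 2 ^ d ≤ ‖l‖ ^ N → 2 ^ d ≤ ‖l‖ ^ N' := by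
      intro d N N' l hd hN h
      have h2d : (1 : ℝ) < 2 ^ d := one_lt_pow₀ (by norm_num) hd.ne'
      have hl : 1 ≤ ‖l‖ := by
        by_contra hlt
        push Not at hlt
        have := pow_le_one₀ (n := N) (norm_nonneg l) hlt.le
        linarith
      exact h.trans (pow_le_pow_right₀ hl hN)
    refine ⟨E1 + E2, fun G _ M ρ => ⟨?_, ?_⟩⟩
    · intro _ hρ
      obtain ⟨ε1, hε1, heps1⟩ := eps_of E1 hE1
      obtain ⟨ε2, hε2, heps2⟩ := eps_of E2 hE2
      refine ⟨_, nhd ρ hρ (min ε1 ε2) (lt_min hε1 hε2), ?_⟩
      rintro Γ ⟨htf, k, _, _, S, R, L, _, _, _, hL⟩ g u hu hΓ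
      refine final_step' R htf _ (lt_min hε1 hε2) g u hu hΓ fun hnil => ?_
      have hunit : IsUnit (R.r ⟨g * u * g⁻¹, hΓ⟩) :=
        (Group.isUnit (⟨g * u * g⁻¹, hΓ⟩ : Γ)).map R.r
      rcases hL with ⟨hs, p, a, φ, hp, ha, hQ, hbad⟩ | ⟨p, a, φ, I, hp, ha, hQ, hI, hφ, hB2⟩
      · obtain ⟨σ, hσ, l, hl, hle⟩ := h2 k L S _ p a φ hp ha hQ hs hbad hunit
          (fun σ hσ l hl => R.comp' _ σ hσ l hl) hnil
        refine ⟨σ, hσ, l, hl, (min_le_right _ _).trans (heps2 1 1 l one_pos le_rfl ?_)⟩
        rw [pow_one, mul_one]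
        exact hle
      · obtain ⟨σ, hσ, l, hl, hle⟩ := h1 k L S _ p a φ I R.nonempty hunit hp ha hQ hI hφ hB2
          (fun σ hσ l hl => R.comp' _ σ hσ l hl) hnil
        refine ⟨σ, hσ, l, hl, (min_le_left _ _).trans
          (heps1 _ _ l (Finset.card_pos.mpr R.nonempty) ?_ hle)⟩
        rw [← Embeddings.card k ℂ]
        exact Finset.card_le_univ S
    · intro Γ k L _ _ _ _ _ S R γ hγ hinf
      have hunit : IsUnit (R.r ⟨γ, hγ⟩) := (Group.isUnit (⟨γ, hγ⟩ : Γ)).map R.r
      have hnil : ∀ N : ℕ, 0 < N → ¬ IsNilpotent (R.r ⟨γ, hγ⟩ ^ N - 1) := by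
        intro N hN hnl
        rw [← map_pow] at hnl
        exact hinf N hN (congrArg Subtype.val (R.unipotent _ hnl))
      refine ⟨?_, ?_⟩
      · rintro hs ⟨p, a, φ, hp, ha, hQ, hbad⟩
        obtain ⟨σ, hσ, l, hl, hle⟩ := h2 k L S _ p a φ hp ha hQ hs hbad hunit
          (fun σ hσ l hl => R.comp' _ σ hσ l hl) hnil
        refine ⟨l, R.eig σ hσ ⟨γ, hγ⟩ l hl, ?_⟩
        have := up 1 E2 (E1 + E2) l one_pos (Nat.le_add_left _ _) (by rw [pow_one]; exact hle)
        rwa [pow_one] at this
      · rintro ⟨p, a, φ, I, hp, ha, hQ, hI, hφ, hB2⟩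
        obtain ⟨σ, hσ, l, hl, hle⟩ := h1 k L S _ p a φ I R.nonempty hunit hp ha hQ hI hφ hB2
          (fun σ hσ l hl => R.comp' _ σ hσ l hl) hnil
        exact ⟨l, R.eig σ hσ ⟨γ, hγ⟩ l hl, up _ _ _ l finrank_pos
          (Nat.mul_le_mul_right _ (Nat.le_add_right _ _)) hle⟩
  · intro F L _ _ _ _ _ _ p a φ hp ha hcomm h Q hQ
    refine ⟨fun c hc => ?_, fun hrad B hB hBp => ?_⟩
    · refine ⟨p, a, (φ : L ≃+* L), hp, ha, hQ, ?_⟩
      rw [badDegree_eq_zero p a hp (φ : L ≃+* L)
        (fun J hJ hpJ x => central_all p a φ hcomm h J hJ hpJ x)]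
      simp only [Nat.cast_zero, zero_mul]
      positivity
    · refine ⟨p, a, (φ : L ≃+* L), Ideal.span {(p : 𝓞 L)}, hp, ha, hQ,
        Ideal.mem_span_singleton_self _, ?_, ?_⟩
      · intro x
        exact central p a φ hcomm hrad h x
      · rw [Ideal.absNorm_span_natCast, RingOfIntegers.rank]
        push_cast
        exact pow_le_pow_left₀ (by linarith) hBp _

end Pool.Agent.Results.MP_162bbe_gt.FrobeniusAutomorphisms
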