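import Mathlib
import Pool.Agent.H225R3.MargDefs
import Pool.Agent.R826.FrobJ
import Pool.Agent.R826.FrobO

/-!
# Margulis' injectivity radius conjecture and inertia automorphisms

`Pool.Agent.H225R3.MargDefs` contains the definitions: `Realization ρ Γ k n S` (a homomorphism `r`
from `Γ` to the `n` by `n` matrices over the ring of integers of the number field `k`, bounded under
all embeddings outside `S`, such that for `σ` in `S` the eigenvalues of `σ (r γ)` are eigenvalues of
`ρ γ`, and such that only `1` is mapped to a unipotent matrix) and `UniformlyDiscrete` (there is an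
identity neighbourhood `U` such that `g U g⁻¹` meets every group of the family in the identity only).

The theorem is about arithmetic groups over number fields `k`, of any degree, with set `S` of
noncompact embeddings, which have a finite extension `L` with more than `|S| [L : k]` inertia
automorphisms.  There are two cases.

(a) The number `|S| [L : k]` is bounded, and the automorphisms `τ` of `L` which, for some prime number
`p ≤ Q`, act trivially on the residue fields of `L` above `p`, up to exceptional primes with sum of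
residue degrees at most `c d / log (2 d)`, `d = [L : ℚ]`, generate a group of order greater than
`|S| [L : k]`.  There is no condition on ramification indices and residue degrees.

(b) The automorphisms `τ` such that `(τ x) ^ q ≡ x ^ q` modulo an ideal of norm at least
`B ^ [L : ℚ]`, where `q ≥ 1` is a bounded power of a bounded prime number in the ideal and `B > 1`,
generate a group of order greater than `|S| [L : k]`.

Method.  Let `A = r γ`, `M = (τ A) ^ q` (`q = 1` in case (a)), and let `I` be the ideal in (b), or the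
product of the primes above `p` which are not exceptional.  Modulo `I` the characteristic polynomials
of `M` and of `A ^ q` are the same.  Hence `W t`, the value at `A ^ (q p ^ t)` of the characteristic
polynomial of `M ^ (p ^ t)`, is `0` modulo `I ^ (t + 1)` for all `t`.  If some coefficient of the
characteristic polynomial of `W t`, other than the leading one, is not zero, its norm is large, and an
eigenvalue of `A` is large, for a fixed large `t` in case (b), and for `p ^ t` of the order of `d` in
case (a) if the norm of `I` is at least `p ^ (C d / log (2 d))`; if it is smaller the bound of the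
starting files for highly ramified fields applies.  Otherwise the `q p ^ t`-th powers of the
eigenvalues of `σ A` are such powers of eigenvalues of `σ (τ A)`, so that the set of the embeddings
`σ` of `L` such that `σ A` has an eigenvalue outside the unit circle is invariant under `τ`.  This
nonempty set has at most `|S| [L : k]` elements, and the automorphisms act without fixed points.
-/

set_option autoImplicit false

namespace Pool.Agent.Results.MP_162bbe_gt.InertiaAutomorphisms

open NumberField Module Pool.Agent.H225R3.Marg Pool.Agent.R826.Frob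

universe u

/-- Case (a): there is a prime number `p ≤ Q` such that the sum of the residue degrees of the prime
ideals of `L` above `p` modulo which `τ` is not the identity (this sum is `badDegree p 1 τ`) is at
most `c d / log (2 d)`, where `d = [L : ℚ]`. -/
def InertiaAbove (c : ℝ) (Q : ℕ) {L : Type} [Field L] [NumberField L] (τ : RingAut L) : Prop :=
  ∃ p : ℕ, p.Prime ∧ p ≤ Q ∧
    (badDegree p 1 τ : ℝ) * Real.log (2 * finrank ℚ L) ≤ c * finrank ℚ L

/-- Case (b): the automorphism `τ` of the number field `L` satisfies `(τ x) ^ q ≡ x ^ q` modulo `I`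
for all integral `x`, where `q = p ^ i ≤ Q` is a power of a prime number `p ≤ Q` (`i = 0` is allowed)
and `I` is an ideal of the ring of integers of `L` containing `p`, of norm at least `B ^ [L : ℚ]`. -/
def InertiaModulo (B : ℝ) (Q : ℕ) {L : Type} [Field L] [NumberField L] (τ : RingAut L) : Prop :=
  ∃ (p i : ℕ) (I : Ideal (𝓞 L)), p.Prime ∧ p ≤ Q ∧ p ^ i ≤ Q ∧ (p : 𝓞 L) ∈ I ∧
    (∀ x : 𝓞 L, (RingOfIntegers.mapRingHom (τ : L →+* L) x) ^ p ^ i - x ^ p ^ i ∈ I) ∧
    B ^ finrank ℚ L ≤ (Ideal.absNorm I : ℝ)

/-- The numerical condition in the two cases, for a finite extension `L` of `k`. -/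
def ManyInertia (B c : ℝ) (Q s : ℕ) (k L : Type) [Field k] [NumberField k] [Field L] [NumberField L]
    [Algebra k L] (S : Finset (k →+* ℂ)) : Prop :=
  (S.card * finrank k L ≤ s ∧
    S.card * finrank k L < Nat.card (Subgroup.closure {τ : RingAut L | InertiaAbove c Q τ})) ∨
  S.card * finrank k L < Nat.card (Subgroup.closure {τ : RingAut L | InertiaModulo B Q τ})

/-- The torsion-free subgroups `Γ` of `G` which have a realization by matrices of size `n` over a
number field `k` with set of noncompact embeddings `S`, such that `k` has a finite extension `L` with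
`ManyInertia B c Q s k L S`. -/
def Family (B c : ℝ) (Q s n : ℕ) {G : Type*} [Group G] {M : ℕ}
    (ρ : G →* Matrix (Fin M) (Fin M) ℂ) : Set (Subgroup G) :=
  {Γ | (∀ γ ∈ Γ, ∀ N : ℕ, 0 < N → γ ^ N = 1 → γ = 1) ∧
    ∃ (k : Type) (_ : Field k) (_ : NumberField k) (S : Finset (k →+* ℂ))
      (_ : Realization ρ Γ k n S) (L : Type) (_ : Field L) (_ : NumberField L) (_ : Algebra k L),
      ManyInertia B c Q s k L S}

/-- (1) Let `B > 1`, `c`, `Q`, `s` and `n` be given. For a topological group `G` and a continuous
finite dimensional complex representation `ρ` of `G` (for instance the complexified adjoint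
representation of a semisimple Lie group) the family `Family B c Q s n ρ` of torsion-free subgroups
of `G` is uniformly discrete. Moreover there is a number `E`, which only depends on `B`, `c`, `Q`,
`s` and `n`, such that if a subgroup `Γ` of `G` has a realization by matrices of size `n` over a
number field `k`, with set of noncompact embeddings `S`, and `L` is a finite extension of `k` with
`ManyInertia B c Q s k L S`, then each element `γ` of `Γ` of infinite order has an eigenvalue `l`
(of `ρ γ`) with `|l| ^ E ≥ 2`.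

(2) If `L / F` is a Galois extension of number fields, and a central element `τ` of the Galois group
satisfies, for every prime ideal `P` of `F` above the prime number `p`, the congruence `τ x ≡ x`
modulo at least one prime ideal of `L` above `P`, then `InertiaAbove c Q τ` holds for all `c ≥ 0` and
`Q ≥ p`.

(3) If `p` is a prime number, `q = p ^ i`, and the ring of integers of `L` is generated by elements
`z` such that `(τ z) ^ q ≡ z ^ q` modulo `p` (for instance if it is generated by elements fixed by `τ`
and a root of unity of `p`-power order which is multiplied by a `q`-th root of unity by `τ`), then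
`InertiaModulo B Q τ` holds for all `B ≤ p` and `Q ≥ p, q`. -/
theorem result :
    (∀ (B c : ℝ) (Q s n : ℕ), 1 < B → ∃ E : ℕ, ∀ (G : Type u) [Group G] (M : ℕ)
      (ρ : G →* Matrix (Fin M) (Fin M) ℂ),
      (∀ [TopologicalSpace G], Continuous ρ → UniformlyDiscrete (Family B c Q s n ρ)) ∧
      ∀ (Γ : Subgroup G) (k L : Type) [Field k] [NumberField k] [Field L] [NumberField L]
        [Algebra k L] (S : Finset (k →+* ℂ)), Realization ρ Γ k n S → ManyInertia B c Q s k L S →
        ∀ γ ∈ Γ, (∀ N : ℕ, 0 < N → γ ^ N ≠ 1) → ∃ l : ℂ, IsEig (ρ γ) l ∧ 2 ≤ ‖l‖ ^ E) ∧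
    (∀ (F L : Type) [Field F] [NumberField F] [Field L] [NumberField L] [Algebra F L]
      [IsGalois F L] (p : ℕ) (τ : Gal(L/F)), p.Prime →
      (∀ τ' : Gal(L/F), τ * τ' = τ' * τ) →
      (∀ P : Ideal (𝓞 F), P.IsPrime → (p : 𝓞 F) ∈ P → ∃ q : Ideal (𝓞 L), q.IsPrime ∧
        q.under (𝓞 F) = P ∧ ∀ x : 𝓞 L, τ • x - x ∈ q) →
      ∀ (c : ℝ) (Q : ℕ), 0 ≤ c → p ≤ Q → InertiaAbove c Q (L := L) (τ : L ≃+* L)) ∧
    ∀ (L : Type) [Field L] [NumberField L] (p i : ℕ) (τ : RingAut L) (Z : Set (𝓞 L)), p.Prime →
      Algebra.adjoin ℤ Z = ⊤ →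
      (∀ z ∈ Z, (RingOfIntegers.mapRingHom (τ : L →+* L) z) ^ p ^ i - z ^ p ^ i ∈
        Ideal.span {(p : 𝓞 L)}) →
      ∀ (B : ℝ) (Q : ℕ), 1 < B → B ≤ p → p ≤ Q → p ^ i ≤ Q → InertiaModulo B Q τ := by
  refine ⟨?_, ?_, ?_⟩
  · intro B c Q s n hB
    obtain ⟨E1, hE1, h1⟩ := inertia_ext_gap B hB Q n
    obtain ⟨E2, hE2, h2⟩ := inertia_ram_ext_gap Q s n c
    -- one gap for both cases
    have gap : ∀ (k L : Type) [Field k] [NumberField k] [Field L] [NumberField L] [Algebra k L]
        (S : Finset (k →+* ℂ)) (A : Matrix (Fin n) (Fin n) (𝓞 k)), ManyInertia B c Q s k L S →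
        S.Nonempty → IsUnit A →
        (∀ σ : k →+* ℂ, σ ∉ S → ∀ l : ℂ, ((emb σ).mapMatrix A).charpoly.IsRoot l → ‖l‖ ≤ 1) →
        (∀ N : ℕ, 0 < N → ¬ IsNilpotent (A ^ N - 1)) →
        ∃ σ ∈ S, ∃ l : ℂ, ((emb σ).mapMatrix A).charpoly.IsRoot l ∧ 2 ≤ ‖l‖ ^ (E1 + E2) := by
      intro k L _ _ _ _ _ S A hM hS hunit hout hnil
      have up : ∀ (N N' : ℕ) (l : ℂ), N ≤ N' → 2 ≤ ‖l‖ ^ N → 2 ≤ ‖l‖ ^ N' := by
        intro N N' l hN h
        have hl : 1 ≤ ‖l‖ := by
          by_contra hlt
          push Not at hlt
          have := pow_le_one₀ (n := N) (norm_nonneg l) hlt.le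
          linarith
        exact h.trans (pow_le_pow_right₀ hl hN)
      rcases hM with ⟨hs, hM⟩ | hM
      · obtain ⟨σ, hσ, l, hl, hle⟩ := h2 k L S A _ (fun τ hτ => hτ) hs hM hunit hout hnil
        exact ⟨σ, hσ, l, hl, up _ _ l (Nat.le_add_left _ _) hle⟩
      · obtain ⟨σ, hσ, l, hl, hle⟩ := h1 k L S A _ (fun τ hτ => hτ) hM hunit hout hnil
        refine ⟨σ, hσ, l, hl, up _ _ l (Nat.le_add_right _ _) ?_⟩
        by_contra hcon
        push Not at hcon
        have hSpos : 0 < S.card := Finset.card_pos.mpr hS
        have hSd : S.card ≤ finrank ℚ k := by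
          rw [← Embeddings.card k ℂ]
          exact Finset.card_le_univ S
        have e1 : (‖l‖ ^ E1) ^ S.card < 2 ^ S.card :=
          pow_lt_pow_left₀ hcon (by positivity) hSpos.ne'
        have e2 : (2 : ℝ) ^ S.card ≤ 2 ^ finrank ℚ k := pow_le_pow_right₀ (by norm_num) hSd
        rw [← pow_mul] at e1
        linarith
    refine ⟨E1 + E2, fun G _ M ρ => ⟨?_, ?_⟩⟩
    · intro _ hρ
      obtain ⟨ε, hε, heps⟩ := eps_of (E1 + E2) (by omega)
      refine ⟨_, nhd ρ hρ ε hε, ?_⟩
      rintro Γ ⟨htf, k, _, _, S, R, L, _, _, _, hM⟩ g u hu hΓ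
      refine final_step' R htf ε hε g u hu hΓ fun hnil => ?_
      have hunit : IsUnit (R.r ⟨g * u * g⁻¹, hΓ⟩) :=
        (Group.isUnit (⟨g * u * g⁻¹, hΓ⟩ : Γ)).map R.r
      obtain ⟨σ, hσ, l, hl, hle⟩ := gap k L S _ hM R.nonempty hunit
        (fun σ hσ l hl => R.comp' _ σ hσ l hl) hnil
      refine ⟨σ, hσ, l, hl, heps 1 1 l one_pos le_rfl ?_⟩
      rw [pow_one, mul_one]
      exact hle
    · intro Γ k L _ _ _ _ _ S R hM γ hγ hinf
      have hunit : IsUnit (R.r ⟨γ, hγ⟩) := (Group.isUnit (⟨γ, hγ⟩ : Γ)).map R.r
      obtain ⟨σ, hσ, l, hl, hle⟩ := gap k L S _ hM R.nonempty hunit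
        (fun σ hσ l hl => R.comp' _ σ hσ l hl) (by
          intro N hN hnl
          rw [← map_pow] at hnl
          exact hinf N hN (congrArg Subtype.val (R.unipotent _ hnl)))
      exact ⟨l, R.eig σ hσ ⟨γ, hγ⟩ l hl, hle⟩
  · intro F L _ _ _ _ _ _ p τ hp hcomm h c Q hc hQ
    refine ⟨p, hp, hQ, ?_⟩
    have h0 : badDegree p (p ^ 0) (τ : L ≃+* L) = 0 :=
      badDegree_eq_zero p 0 hp (τ : L ≃+* L)
        (fun J hJ hpJ x => central_all p 0 τ hcomm (by
          intro P hP hpP
          obtain ⟨q, hq, hq2, hq3⟩ := h P hP hpP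
          refine ⟨q, hq, hq2, fun x => ?_⟩
          rw [pow_zero, pow_one]
          exact hq3 x) J hJ hpJ x)
    rw [pow_zero] at h0
    have h1 : (badDegree p 1 (τ : L ≃+* L) : ℝ) = 0 := by rw [h0]; simp
    rw [h1, zero_mul]
    positivity
  · intro L _ _ p i τ Z hp hZ hz B Q hB hBp hpQ hpi
    refine ⟨p, i, Ideal.span {(p : 𝓞 L)}, hp, hpQ, hpi, Ideal.mem_span_singleton_self _, ?_, ?_⟩
    · exact gen_crit p i hp Z hZ _ hz
    · rw [Ideal.absNorm_span_natCast, RingOfIntegers.rank]
      push_cast
      exact pow_le_pow_left₀ (by linarith) hBp _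

end Pool.Agent.Results.MP_162bbe_gt.InertiaAutomorphisms
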