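import Mathlib
import Pool.Agent.R976.MG.Disc2

/-!
# Margulis' injectivity radius conjecture over fields with many ramified primes

Let `δ > 0`. Number fields `k`, of any degree `m`, are considered with a set of prime numbers `p` with
product at least `(δ m) ^ 2` above which the sum of the residue degrees is at most `m / (2 s n)`, for
instance, above which all ramification indices are at least `2 s n`. All torsion-free groups realized
by integral matrices of a fixed size `n` over these fields, with at most `s` noncompact embeddings,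
form a uniformly discrete family. So a fixed amount of ramification is sufficient, if it occurs at a
prime number of the order `m ^ 2` (for example if `k` contains `p ^ (1 / (2 s n))`), or at all the
primes up to a constant times `log m`.

Quantitatively, each `γ ≠ 1` has an eigenvalue `l` under one of the noncompact embeddings with
`s n log |l| ≥ c (log log (16 + n / δ) / log (16 + n / δ)) ^ 3`, where `c > 0` is absolute. So
the loss is that of Dobrowolski's theorem, with the degree replaced by `n / δ`.

Method. By the transfer principle of the starting files (`Pool.Agent.Y399.MG.transfer`) there are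
for each eigenvalue of `r γ` which is not a root of unity an extension `L` of `k` of degree at most
`n`, a subfield `M` of `L` with `[L : M] ≤ s n`, and a generator `β` of `M` with a Mahler measure
controlled by the eigenvalue. As the sums of the residue degrees above `p` of `k`, `L` and `M` are
comparable, at least half of the degree of `M` comes from the ramification at the given primes, so
that the discriminant of `M` is at least `(δ m) ^ d`, where `d` is the degree of `M`. So the
discriminant of `ℤ[β]` is large, and for numbers of this kind a lower bound for Mahler measures is in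
the starting files (`Pool.Agent.Y399.RD.field_bound`).

`Pool.Agent.H225R3.MargDefs` contains the definitions: `Realization ρ Γ k n S` (a homomorphism `r`
from `Γ` to the `n` by `n` matrices over the ring of integers of the number field `k`, bounded under
all embeddings outside `S`, such that for `σ` in `S` the eigenvalues of `σ (r γ)` are eigenvalues of
`ρ γ`, and such that only `1` is mapped to a unipotent matrix) and `UniformlyDiscrete` (there is an
identity neighbourhood `U` such that `g U g⁻¹` meets every group of the family in the identity only).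
-/

set_option autoImplicit false

namespace Pool.Agent.Results.MP_162bbe_gt.ManyRamifiedPrimes

open NumberField Module Pool.Agent.H225R3.Marg

universe u

/-- There is no element of finite order other than the identity. -/
def TorsionFree {G : Type*} [Group G] (Γ : Subgroup G) : Prop :=
  ∀ γ ∈ Γ, ∀ N : ℕ, 0 < N → γ ^ N = 1 → γ = 1

/-- The sum of the residue degrees of the prime ideals of `k` above `p`, multiplied by `N`, is at
most the degree of `k`. (The sum of the products of residue degree and ramification index is the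
degree of `k`.) -/
def Ramified (k : Type) [Field k] [NumberField k] (N p : ℕ) : Prop :=
  N * ∑ P ∈ IsDedekindDomain.primesOverFinset (Ideal.span {(p : ℤ)}) (𝓞 k), P.inertiaDeg ℤ ≤
    finrank ℚ k

/-- The torsion-free subgroups `Γ` of `G` that have a realization by matrices of size `n`, with at
most `s` noncompact embeddings, over a number field `k`, of any degree `m`, which is ramified, in
the sense of `Ramified` with `N = 2 s n`, at prime numbers with product at least `(δ m) ^ 2`. -/
def RamifiedFamily (δ : ℝ) (s n : ℕ) {G : Type*} [Group G] {M : ℕ}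
    (ρ : G →* Matrix (Fin M) (Fin M) ℂ) : Set (Subgroup G) :=
  {Γ | TorsionFree Γ ∧
    ∃ (k : Type) (_ : Field k) (_ : NumberField k) (S : Finset (k →+* ℂ))
      (_ : Realization ρ Γ k n S) (A : Finset ℕ), S.card ≤ s ∧
        (∀ p ∈ A, p.Prime ∧ Ramified k (2 * (s * n)) p) ∧
        (δ * finrank ℚ k) ^ 2 ≤ ∏ p ∈ A, (p : ℝ)}

/-- Every `γ ≠ 1` in `Γ` has an eigenvalue `l` under one of the noncompact embeddings, which is also
an eigenvalue of `ρ γ`, with `|l| > 1` and `N log |l| ≥ μ`. -/
def EigenvalueBound {G : Type*} [Group G] {M : ℕ} {ρ : G →* Matrix (Fin M) (Fin M) ℂ}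
    {Γ : Subgroup G} {k : Type} [Field k] [NumberField k] {n : ℕ} {S : Finset (k →+* ℂ)}
    (R : Realization ρ Γ k n S) (N : ℕ) (μ : ℝ) : Prop :=
  ∀ γ : Γ, γ ≠ 1 → ∃ σ ∈ S, ∃ l : ℂ, IsEig (conjMat σ (R.r γ)) l ∧ IsEig (ρ γ) l ∧
    1 < ‖l‖ ∧ μ ≤ N * Real.log ‖l‖

/-- **Margulis' conjecture over fields with many ramified primes.**

1. There is an absolute constant `c > 0` such that for every `δ > 0`, every torsion-free group `Γ`
   with a realization `R` of size `n` over a number field `k` of degree `m`, with at most `s`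
   noncompact embeddings, and every finite set of prime numbers with product at least `(δ m) ^ 2` at
   which `k` is ramified, in the sense of `Ramified` with `N = 2 s n`, each `γ ≠ 1` in `Γ` has an
   eigenvalue `l` under one of the noncompact embeddings, which is also an eigenvalue of `ρ γ`, with
   `s n log |l| ≥ c (log log (16 + n / δ) / log (16 + n / δ)) ^ 3`.
2. For all `δ > 0`, `s`, `n` and every continuous finite dimensional complex representation `ρ` of
   a topological group the family `RamifiedFamily δ s n ρ` is uniformly discrete.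

Moreover `Ramified k N p` holds if all ramification indices of `k` above `p` are at least `N`. -/
theorem result :
    (∃ c : ℝ, 0 < c ∧ ∀ (δ : ℝ), 0 < δ →
      ∀ (G : Type u) [Group G] (M : ℕ) (ρ : G →* Matrix (Fin M) (Fin M) ℂ) (Γ : Subgroup G)
        (k : Type) [Field k] [NumberField k] (n s : ℕ) (S : Finset (k →+* ℂ))
        (R : Realization ρ Γ k n S) (A : Finset ℕ),
        (∀ p ∈ A, p.Prime ∧ Ramified k (2 * (s * n)) p) →
        (δ * finrank ℚ k) ^ 2 ≤ ∏ p ∈ A, (p : ℝ) → TorsionFree Γ → S.card ≤ s →
        EigenvalueBound R (s * n)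
          (c * (Real.log (Real.log (16 + n / δ)) / Real.log (16 + n / δ)) ^ 3)) ∧
    (∀ (δ : ℝ) (s n : ℕ), 0 < δ →
      ∀ (G : Type u) [Group G] [TopologicalSpace G] (M : ℕ)
        (ρ : G →* Matrix (Fin M) (Fin M) ℂ), Continuous ρ →
        UniformlyDiscrete (RamifiedFamily δ s n ρ)) ∧
    (∀ (k : Type) [Field k] [NumberField k] (N p : ℕ), p.Prime →
      (∀ P : Ideal (𝓞 k), P.IsPrime → P.LiesOver (Ideal.span {(p : ℤ)}) →
        N ≤ P.ramificationIdx ℤ) → Ramified k N p) := by
  have aux : ∀ {G : Type u} [Group G] {M : ℕ} {ρ : G →* Matrix (Fin M) (Fin M) ℂ}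
      {Γ : Subgroup G} {k : Type} [Field k] [NumberField k] {n : ℕ} {S : Finset (k →+* ℂ)}
      (R : Realization ρ Γ k n S) (_ : TorsionFree Γ)
      (γ : Γ), γ ≠ 1 → ∀ N : ℕ, 0 < N → ¬ IsNilpotent (R.r γ ^ N - 1) := by
    intro G _ M ρ Γ k _ _ n S R htf γ hγ N hN h0
    rw [← map_pow] at h0
    have h1 := R.unipotent _ h0
    have h2 : (γ : G) ^ N = 1 := congrArg Subtype.val h1
    exact hγ (Subtype.ext (htf _ γ.2 N hN h2))
  obtain ⟨c', hc', hlower'⟩ := Pool.Agent.R976.MG.ram_lower
  have key' : ∀ (δ : ℝ), 0 < δ →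
      ∀ (k : Type) [Field k] [NumberField k] (n s : ℕ) (S : Finset (k →+* ℂ))
        (A : Matrix (Fin n) (Fin n) (𝓞 k)) (PP : Finset ℕ),
        (∀ p ∈ PP, p.Prime ∧ Ramified k (2 * (s * n)) p) →
        (δ * finrank ℚ k) ^ 2 ≤ ∏ p ∈ PP, (p : ℝ) → S.card ≤ s → IsUnit A →
        (∀ σ : k →+* ℂ, σ ∉ S → ∀ l : ℂ, IsEig (conjMat σ A) l → ‖l‖ ≤ 1) →
        (∀ N : ℕ, 0 < N → ¬ IsNilpotent (A ^ N - 1)) →
        ∃ σ ∈ S, ∃ l : ℂ, IsEig (conjMat σ A) l ∧ 1 < ‖l‖ ∧
          c' * (Real.log (Real.log (16 + n / δ)) / Real.log (16 + n / δ)) ^ 3 ≤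
            (s * n : ℕ) * Real.log ‖l‖ := by
    intro δ hδ k _ _ n s S A PP hPP hprod hs hA hout hnil
    refine Pool.Agent.Y399.MG.gap_of k n S A (fun R =>
      c' * (Real.log (Real.log (16 + n / δ)) / Real.log (16 + n / δ)) ^ 3 ≤
            (s * n : ℕ) * Real.log R) ?_ hA hout hnil
    intro L _ _ _ x R hx0 hxi hroot hR hout' hin hdeg
    exact hlower' k L S x s n δ R PP hx0 hxi hroot hR hout' hin hs hdeg hPP hδ hprod
  have hpos : ∀ (c : ℝ), 0 < c → ∀ (n : ℕ) (δ : ℝ), 0 < δ →
      0 < c * (Real.log (Real.log (16 + n / δ)) / Real.log (16 + n / δ)) ^ 3 := by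
    intro c hc n δ hδ
    have hnδ : (0 : ℝ) ≤ n / δ := by positivity
    have h1 : 1 < Real.log (16 + n / δ) := by
      rw [Real.lt_log_iff_exp_lt (by positivity)]
      have h := Real.exp_one_lt_d9
      linarith
    have h2 : 0 < Real.log (Real.log (16 + n / δ)) := Real.log_pos h1
    have : 0 < Real.log (16 + n / δ) := by linarith
    positivity
  refine ⟨⟨c', hc', ?_⟩, ?_, ?_⟩
  · intro δ hδ G _ M ρ Γ k _ _ n s S R A hA hprod htf hs γ hγ
    obtain ⟨σ, hσ, l, hl, hl1, hlow⟩ := key' δ hδ k n s S (R.r γ) A hA hprod hs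
      ((Group.isUnit γ).map R.r) (fun σ hσ l hl => R.comp' _ σ hσ l hl) (aux R htf γ hγ)
    exact ⟨σ, hσ, l, hl, R.eig σ hσ γ l hl, hl1, hlow⟩
  · intro δ s n hδ G _ _ M ρ hρ
    obtain ⟨ε, hε, hε2⟩ := Pool.Agent.Y399.MG.exists_eps (s * n)
      (c' * (Real.log (Real.log (16 + n / δ)) / Real.log (16 + n / δ)) ^ 3) (hpos c' hc' n δ hδ)
    refine ⟨_, nhd ρ hρ ε hε, ?_⟩
    rintro Γ ⟨htf, k, _, _, S, R, A, hs, hA, hprod⟩ g v hv hΓ
    refine final_step' R htf ε hε g v hv hΓ fun hnil => ?_
    have hunit : IsUnit (R.r ⟨g * v * g⁻¹, hΓ⟩) :=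
      (Group.isUnit (⟨g * v * g⁻¹, hΓ⟩ : Γ)).map R.r
    obtain ⟨σ, hσ, l, hl, hl1, hlow⟩ := key' δ hδ k n s S (R.r ⟨g * v * g⁻¹, hΓ⟩) A hA hprod hs
      hunit (fun σ hσ l hl => R.comp' _ σ hσ l hl) hnil
    exact ⟨σ, hσ, l, hl, hε2 l hlow hl1⟩
  · intro k _ _ N p hp hN
    have : Fact p.Prime := ⟨hp⟩
    have h := Pool.Agent.TH53.HR.resDegSum_le (K := k) p (e := (N : ℝ)) (by
      intro P hP
      exact_mod_cast hN P hP.1 hP.2)
    unfold Ramified
    exact_mod_cast h

end Pool.Agent.Results.MP_162bbe_gt.ManyRamifiedPrimes
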