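import Mathlib
import Pool.Agent.R976.MG.Gap

/-!
# Margulis' injectivity radius conjecture over fields of bounded degree over abelian fields

Fix a number field `K` (for instance `ℚ`) and a prime ideal `𝔭` of `K`. Arithmetic groups over
number fields `k` are considered that contain a Galois extension `E` of `K` with `[k : E] ≤ D`,
such that for fixed `a` and `b` the `a`-th powers of the elements of the decomposition groups of `E`
above `𝔭` have at most `b` conjugates in the Galois group. This holds, for instance, with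
`a = b = 1` if `E` is abelian over `K`, with `a = j!` and `b = j` if the Galois group has an abelian
subgroup of index at most `j` (as for the ring class fields of imaginary quadratic fields), and with
`b = 1` if the Galois group has exponent dividing `a`. All torsion-free groups which are realized by
integral matrices of a fixed size over such fields, with at most `s` noncompact embeddings, form a
uniformly discrete family. Degrees, discriminants and the ramification of `k` are arbitrary.

Quantitatively, every `γ ≠ 1` has an eigenvalue `l` under one of the noncompact embeddings with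
`(s n) log |l| ≥ exp (- C √(1 + log (n [k : E]))) / (C s n)`, where `C` depends on `K`, `𝔭`, `a`
and `b` only.

Method. By the transfer principle of the starting files (`Pool.Agent.Y399.MG.gap_transfer`) a lower
bound is needed for the Mahler measures of the algebraic integers `β`, not roots of unity, that
generate a subfield `M` of index at most `s n` of an extension `L` of `k` of degree at most `n`.
As `[L : E] ≤ n [k : E]`, the relative Lehmer bound of the starting files
(`Pool.Agent.Y740.RL.topQ`, here for the map `z ↦ z ^ p`) gives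
`h (β) ≥ exp (- C √(1 + log [L : E])) / (C [L : K])`, and `log M(β) = [M : ℚ] h(β)`.

`Pool.Agent.H225R3.MargDefs` contains the definitions: `Realization ρ Γ k n S` (a homomorphism `r`
from `Γ` to the `n` by `n` matrices over the ring of integers of the number field `k`, bounded under
all embeddings outside `S`, such that for `σ` in `S` the eigenvalues of `σ (r γ)` are eigenvalues of
`ρ γ`, and such that only `1` is mapped to a unipotent matrix) and `UniformlyDiscrete` (there is an
identity neighbourhood `U` such that `g U g⁻¹` meets every group of the family in the identity only).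
-/

set_option autoImplicit false

namespace Pool.Agent.Results.MP_162bbe_gt.NearVirtuallyAbelianFields

open NumberField Module Pool.Agent.H225R3.Marg
open scoped Pointwise

universe u

/-- There is no element of finite order other than the identity. -/
def TorsionFree {G : Type*} [Group G] (Γ : Subgroup G) : Prop :=
  ∀ γ ∈ Γ, ∀ N : ℕ, 0 < N → γ ^ N = 1 → γ = 1

/-- The `a`-th powers of the elements of the decomposition groups of the primes of `E` above `𝔭`
have at most `b` conjugates in the Galois group of `E` over `K`. -/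
def FewConjugates {K : Type} [Field K] [NumberField K] (𝔭 : Ideal (𝓞 K)) (E : Type) [Field E]
    [NumberField E] [Algebra K E] (a b : ℕ) : Prop :=
  ∀ 𝔓 : Ideal (𝓞 E), 𝔓.IsMaximal → 𝔓.LiesOver 𝔭 → ∀ σ : Gal(E/K), σ • 𝔓 = 𝔓 →
    (Set.range fun g : Gal(E/K) => g * σ ^ a * g⁻¹).ncard ≤ b

/-- The torsion-free subgroups `Γ` of `G` that have a realization by matrices of size `n`, with at
most `s` noncompact embeddings, over a number field `k` that is an extension of degree at most `D`
of a Galois extension `E` of `K` with `FewConjugates 𝔭 E a b`. -/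
def Family {K : Type} [Field K] [NumberField K] (𝔭 : Ideal (𝓞 K)) (a b D s n : ℕ) {G : Type*}
    [Group G] {M : ℕ} (ρ : G →* Matrix (Fin M) (Fin M) ℂ) : Set (Subgroup G) :=
  {Γ | TorsionFree Γ ∧
    ∃ (k : Type) (_ : Field k) (_ : NumberField k) (S : Finset (k →+* ℂ))
      (_ : Realization ρ Γ k n S) (E : Type) (_ : Field E) (_ : NumberField E) (_ : Algebra K E)
      (_ : Algebra E k), IsGalois K E ∧ S.card ≤ s ∧ finrank E k ≤ D ∧ FewConjugates 𝔭 E a b}

/-- Every `γ ≠ 1` in `Γ` has an eigenvalue `l` under one of the noncompact embeddings, which is also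
an eigenvalue of `ρ γ`, with `|l| > 1` and `|l| ^ N ≥ μ`. -/
def EigenvalueBound {G : Type*} [Group G] {M : ℕ} {ρ : G →* Matrix (Fin M) (Fin M) ℂ}
    {Γ : Subgroup G} {k : Type} [Field k] [NumberField k] {n : ℕ} {S : Finset (k →+* ℂ)}
    (R : Realization ρ Γ k n S) (N : ℕ) (μ : ℝ) : Prop :=
  ∀ γ : Γ, γ ≠ 1 → ∃ σ ∈ S, ∃ l : ℂ, IsEig (conjMat σ (R.r γ)) l ∧ IsEig (ρ γ) l ∧
    1 < ‖l‖ ∧ μ ≤ ‖l‖ ^ N

/-- **Margulis' conjecture over fields of bounded degree over virtually abelian extensions.** Let `K`
be a number field and `𝔭` a maximal ideal of its ring of integers which contains the prime number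
`p`.

1. For all `a ≥ 1` and `b` there is `C > 0` such that for every torsion-free group `Γ` with a
   realization `R` of size `n` over a number field `k`, with at most `s` noncompact embeddings, and
   every Galois extension `E` of `K` contained in `k` with `FewConjugates 𝔭 E a b`, each `γ ≠ 1` in
   `Γ` has an eigenvalue `l` under one of the noncompact embeddings, which is also an eigenvalue of
   `ρ γ`, with `|l| ^ (s n) ≥ exp (exp (- C √(1 + log (n [k : E]))) / (C s n))`.
2. For all `a ≥ 1`, `b`, `D`, `s`, `n` and every continuous finite dimensional complex representation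
   `ρ` of a topological group the family `Family 𝔭 a b D s n ρ` is uniformly discrete.
3. `FewConjugates 𝔭 E (j!) j` holds if the Galois group of `E` over `K` has a commutative subgroup of
   index at most `j`.
4. `FewConjugates 𝔭 E a 1` holds if all `a`-th powers in the Galois group are trivial. -/
theorem result (K : Type) [Field K] [NumberField K] (p : ℕ) (hp : p.Prime) (𝔭 : Ideal (𝓞 K))
    (h𝔭 : 𝔭.IsMaximal) (hp𝔭 : (p : 𝓞 K) ∈ 𝔭) :
    (∀ a b : ℕ, 1 ≤ a → ∃ C : ℝ, 0 < C ∧
      ∀ (G : Type u) [Group G] (M : ℕ) (ρ : G →* Matrix (Fin M) (Fin M) ℂ) (Γ : Subgroup G)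
        (E k : Type) [Field E] [NumberField E] [Field k] [NumberField k] [Algebra K E]
        [Algebra E k] [IsGalois K E] (n s : ℕ) (S : Finset (k →+* ℂ)) (R : Realization ρ Γ k n S),
        FewConjugates 𝔭 E a b → TorsionFree Γ → S.card ≤ s →
        EigenvalueBound R (s * n) (Real.exp
          (Real.exp (-(C * Real.sqrt (1 + Real.log (n * finrank E k : ℕ)))) /
            (C * (s * n : ℕ))))) ∧
    (∀ a b : ℕ, 1 ≤ a → ∀ (D s n : ℕ) (G : Type u) [Group G] [TopologicalSpace G] (M : ℕ)
      (ρ : G →* Matrix (Fin M) (Fin M) ℂ), Continuous ρ →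
      UniformlyDiscrete (Family 𝔭 a b D s n ρ)) ∧
    (∀ (E : Type) [Field E] [NumberField E] [Algebra K E] (A : Subgroup Gal(E/K)) (j : ℕ),
      (∀ x ∈ A, ∀ y ∈ A, x * y = y * x) → A.index ≤ j → FewConjugates 𝔭 E j.factorial j) ∧
    (∀ (E : Type) [Field E] [NumberField E] [Algebra K E] (a : ℕ),
      (∀ σ : Gal(E/K), σ ^ a = 1) → FewConjugates 𝔭 E a 1) := by
  have aux : ∀ {G : Type u} [Group G] {M : ℕ} {ρ : G →* Matrix (Fin M) (Fin M) ℂ}
      {Γ : Subgroup G} {k : Type} [Field k] [NumberField k] {n : ℕ} {S : Finset (k →+* ℂ)}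
      (R : Realization ρ Γ k n S) (_ : TorsionFree Γ)
      (γ : Γ), γ ≠ 1 → ∀ N : ℕ, 0 < N → ¬ IsNilpotent (R.r γ ^ N - 1) := by
    intro G _ M ρ Γ k _ _ n S R htf γ hγ N hN h0
    rw [← map_pow] at h0
    have h1 := R.unipotent _ h0
    have h2 : (γ : G) ^ N = 1 := congrArg Subtype.val h1
    exact hγ (Subtype.ext (htf _ γ.2 N hN h2))
  refine ⟨?_, ?_, ?_, ?_⟩
  · intro a b ha
    obtain ⟨C, hC, h⟩ := Pool.Agent.R976.MG.near_mahler K hp 𝔭 h𝔭 hp𝔭 a b ha
    refine ⟨C, hC, ?_⟩
    intro G _ M ρ Γ E k _ _ _ _ _ _ _ n s S R hfew htf hs γ hγ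
    obtain ⟨σ, hσ, l, hl, hl1, hlow⟩ := Pool.Agent.Y399.MG.gap_transfer k n s S (R.r γ) hs
      (Pool.Agent.R976.MG.lb C n (finrank E k) (s * n))
      (fun L _ _ _ M' β h1 h2 h3 h4 h5 => h E k hfew n (s * n) L M' β h1 h2 h3 h4 h5)
      ((Group.isUnit γ).map R.r) (fun σ hσ l hl => R.comp' _ σ hσ l hl) (aux R htf γ hγ)
    have hl' : IsEig (conjMat σ (R.r γ)) l := hl
    refine ⟨σ, hσ, l, hl', R.eig σ hσ γ l hl', hl1, ?_⟩
    have h6 : Real.exp (Pool.Agent.R976.MG.lb C n (finrank E k) (s * n)) ≤ ‖l‖ ^ (s * n) := by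
      have hl0 : 0 < ‖l‖ := by linarith
      rw [← Real.log_pow] at hlow
      calc Real.exp (Pool.Agent.R976.MG.lb C n (finrank E k) (s * n)) ≤
          Real.exp (Real.log (‖l‖ ^ (s * n))) := Real.exp_le_exp.2 hlow
        _ = ‖l‖ ^ (s * n) := Real.exp_log (pow_pos hl0 _)
    exact h6
  · intro a b ha D s n G _ _ M ρ hρ
    obtain ⟨C, hC, h⟩ := Pool.Agent.R976.MG.near_mahler K hp 𝔭 h𝔭 hp𝔭 a b ha
    obtain ⟨ε, hε, hε2⟩ := Pool.Agent.Y399.MG.exists_eps (s * n)
      (Real.exp (-(C * Real.sqrt (1 + Real.log (n * D : ℕ)))) / (C * (s * n + 1 : ℕ)))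
      (by positivity)
    refine ⟨_, nhd ρ hρ ε hε, ?_⟩
    rintro Γ ⟨htf, k, _, _, S, R, E, _, _, _, _, hgal, hs, hD, hfew⟩ g v hv hΓ
    refine final_step' R htf ε hε g v hv hΓ fun hnil => ?_
    have hunit : IsUnit (R.r ⟨g * v * g⁻¹, hΓ⟩) :=
      (Group.isUnit (⟨g * v * g⁻¹, hΓ⟩ : Γ)).map R.r
    obtain ⟨σ, hσ, l, hl, hl1, hlow⟩ := Pool.Agent.Y399.MG.gap_transfer k n s S
      (R.r ⟨g * v * g⁻¹, hΓ⟩) hs
      (Real.exp (-(C * Real.sqrt (1 + Real.log (n * D : ℕ)))) / (C * (s * n + 1 : ℕ)))
      (fun L _ _ _ M' β h1 h2 h3 h4 h5 => by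
        refine le_trans ?_ (h E k hfew n (s * n) L M' β h1 h2 h3 h4 h5)
        unfold Pool.Agent.R976.MG.lb
        have hsn : 0 < s * n := by
          rcases Nat.eq_zero_or_pos (s * n) with h0 | h0
          · rw [h0] at h2
            have : 0 < finrank M' L := finrank_pos
            omega
          · exact h0
        have hsn' : (0 : ℝ) < ((s * n : ℕ) : ℝ) := by exact_mod_cast hsn
        have h7 := Pool.Agent.R976.MG.exp_mono hC (Nat.mul_le_mul_left n hD)
        have h8 : C * ((s * n : ℕ) : ℝ) ≤ C * ((s * n + 1 : ℕ) : ℝ) := by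
          apply mul_le_mul_of_nonneg_left _ hC.le
          push_cast
          linarith
        calc Real.exp (-(C * Real.sqrt (1 + Real.log (n * D : ℕ)))) / (C * (s * n + 1 : ℕ))
            ≤ Real.exp (-(C * Real.sqrt (1 + Real.log (n * D : ℕ)))) / (C * (s * n : ℕ)) :=
              div_le_div_of_nonneg_left (Real.exp_pos _).le (by positivity) h8
          _ ≤ _ := div_le_div_of_nonneg_right h7 (by positivity))
      hunit (fun σ hσ l hl => R.comp' _ σ hσ l hl) hnil
    exact ⟨σ, hσ, l, hl, hε2 l hlow hl1⟩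
  · intro E _ _ _ A j hA hj 𝔓 _ _ σ _
    refine Pool.Agent.R976.MG.conj_ncard A hA ?_ hj σ
    exact Subgroup.index_ne_zero_of_finite
  · intro E _ _ _ a ha 𝔓 _ _ σ _
    have h1 : (Set.range fun g : Gal(E/K) => g * σ ^ a * g⁻¹) ⊆ {1} := by
      rintro _ ⟨g, rfl⟩
      rw [ha σ]
      simp
    calc (Set.range fun g : Gal(E/K) => g * σ ^ a * g⁻¹).ncard ≤ ({1} : Set Gal(E/K)).ncard :=
          Set.ncard_le_ncard h1 (Set.finite_singleton 1)
      _ = 1 := Set.ncard_singleton 1

end Pool.Agent.Results.MP_162bbe_gt.NearVirtuallyAbelianFields
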